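import Mathlib.Algebra.BigOperators.Ring.Finset
import Mathlib.Data.Nat.Choose.Sum
import Mathlib.Tactic.LinearCombination
import Mathlib.Tactic.Ring
import Mathlib.Tactic.Positivity
import Mathlib.Data.Nat.Factorial.Basic

/-!
# Powers of a sum of null pairs
-/

set_option autoImplicit false

namespace Pool.Agent.U661.CH

open Finset

variable {R : Type} [CommRing R] {ι : Type} [DecidableEq ι]

/-- The relations of two null pairs with the same product. -/
structure Nul (a b u v τ : R) : Prop where
  aa : a * a = 0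
  bb : b * b = 0
  uu : u * u = 0
  vv : v * v = 0
  ab : a * b = τ
  uv : u * v = τ
  au : a * u = 0
  av : a * v = 0
  bu : b * u = 0
  bv : b * v = 0

theorem sq_zero_pow {X a : R} (ha : a * a = 0) (i : ℕ) :
    (X + a) ^ i = X ^ i + (i : R) * X ^ (i - 1) * a := by
  induction i with
  | zero => simp
  | succ i ih =>
    rcases Nat.eq_zero_or_pos i with rfl | hi
    · simp
    · obtain ⟨k, rfl⟩ : ∃ k, i = k + 1 := ⟨i - 1, by omega⟩
      rw [pow_succ, ih]
      simp only [Nat.add_sub_cancel]
      push_cast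
      linear_combination ((k : R) + 1) * X ^ k * ha

/-- the monomials -/
def mon (a b u v : ι → R) (s : Finset ι) (i j p q : ℕ) : R :=
  (∑ x ∈ s, a x) ^ i * (∑ x ∈ s, b x) ^ j * (∑ x ∈ s, u x) ^ p * (∑ x ∈ s, v x) ^ q

theorem mon_insert {a b u v τ : ι → R} {s : Finset ι} {x : ι} (hx : x ∉ s)
    (h : Nul (a x) (b x) (u x) (v x) (τ x)) (i j p q : ℕ) :
    mon a b u v (insert x s) i j p q = mon a b u v s i j p q +
      (i : R) * mon a b u v s (i - 1) j p q * a x + (j : R) * mon a b u v s i (j - 1) p q * b x +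
      (p : R) * mon a b u v s i j (p - 1) q * u x + (q : R) * mon a b u v s i j p (q - 1) * v x +
      (i : R) * (j : R) * mon a b u v s (i - 1) (j - 1) p q * τ x +
      (p : R) * (q : R) * mon a b u v s i j (p - 1) (q - 1) * τ x := by
  unfold mon
  rw [Finset.sum_insert hx, Finset.sum_insert hx, Finset.sum_insert hx, Finset.sum_insert hx,
    add_comm (a x), add_comm (b x), add_comm (u x), add_comm (v x), sq_zero_pow h.aa,
    sq_zero_pow h.bb, sq_zero_pow h.uu, sq_zero_pow h.vv]
  generalize (∑ x ∈ s, a x) ^ i = X1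
  generalize (∑ x ∈ s, b x) ^ j = X2
  generalize (∑ x ∈ s, u x) ^ p = X3
  generalize (∑ x ∈ s, v x) ^ q = X4
  generalize (∑ x ∈ s, a x) ^ (i - 1) = Y1
  generalize (∑ x ∈ s, b x) ^ (j - 1) = Y2
  generalize (∑ x ∈ s, u x) ^ (p - 1) = Y3
  generalize (∑ x ∈ s, v x) ^ (q - 1) = Y4
  generalize (i : R) = I
  generalize (j : R) = J
  generalize (p : R) = P
  generalize (q : R) = Q
  have e1 := h.ab
  have e2 := h.uv
  have e3 := h.au
  have e4 := h.av
  have e5 := h.bu
  have e6 := h.bv
  linear_combination (I * J * Y1 * Y2 * X3 * X4) * e1 + (P * Q * X1 * X2 * Y3 * Y4) * e2 +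
    (I * P * Y1 * X2 * Y3 * X4 + I * J * P * Y1 * Y2 * Y3 * X4 * b x +
      I * P * Q * Y1 * X2 * Y3 * Y4 * v x + I * J * P * Q * Y1 * Y2 * Y3 * Y4 * b x * v x) * e3 +
    (I * Q * Y1 * X2 * X3 * Y4 + I * J * Q * Y1 * Y2 * X3 * Y4 * b x) * e4 +
    (J * P * X1 * Y2 * Y3 * X4 + J * P * Q * X1 * Y2 * Y3 * Y4 * v x) * e5 +
    (J * Q * X1 * Y2 * X3 * Y4) * e6

theorem mon_zero {a b u v τ : ι → R} (s : Finset ι) :
    (∀ x ∈ s, Nul (a x) (b x) (u x) (v x) (τ x)) → ∀ i j p q : ℕ, 2 * s.card < i + j + p + q →
      mon a b u v s i j p q = 0 := by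
  induction s using Finset.induction with
  | empty =>
    intro _ i j p q h
    unfold mon
    simp only [Finset.sum_empty, Finset.card_empty, mul_zero] at h ⊢
    rcases Nat.eq_zero_or_pos i with rfl | hi
    · rcases Nat.eq_zero_or_pos j with rfl | hj
      · rcases Nat.eq_zero_or_pos p with rfl | hp
        · rw [zero_pow (n := q) (by omega), mul_zero]
        · rw [zero_pow (n := p) (by omega), mul_zero, zero_mul]
      · rw [zero_pow (n := j) (by omega), mul_zero, zero_mul, zero_mul]
    · rw [zero_pow (n := i) (by omega), zero_mul, zero_mul, zero_mul]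
  | insert x s hx ih =>
    intro hN i j p q h
    rw [Finset.card_insert_of_notMem hx] at h
    have ih' := ih fun y hy => hN y (Finset.mem_insert_of_mem hy)
    rw [mon_insert hx (hN x (Finset.mem_insert_self _ _))]
    have k0 := ih' i j p q (by omega)
    have k1 : (i : R) * mon a b u v s (i - 1) j p q = 0 := by
      rcases Nat.eq_zero_or_pos i with rfl | hi
      · simp
      · rw [ih' _ _ _ _ (by omega), mul_zero]
    have k2 : (j : R) * mon a b u v s i (j - 1) p q = 0 := by
      rcases Nat.eq_zero_or_pos j with rfl | hi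
      · simp
      · rw [ih' _ _ _ _ (by omega), mul_zero]
    have k3 : (p : R) * mon a b u v s i j (p - 1) q = 0 := by
      rcases Nat.eq_zero_or_pos p with rfl | hi
      · simp
      · rw [ih' _ _ _ _ (by omega), mul_zero]
    have k4 : (q : R) * mon a b u v s i j p (q - 1) = 0 := by
      rcases Nat.eq_zero_or_pos q with rfl | hi
      · simp
      · rw [ih' _ _ _ _ (by omega), mul_zero]
    have k5 : (i : R) * (j : R) * mon a b u v s (i - 1) (j - 1) p q = 0 := by
      rcases Nat.eq_zero_or_pos i with rfl | hi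
      · simp
      · rcases Nat.eq_zero_or_pos j with rfl | hj
        · simp
        · rw [ih' _ _ _ _ (by omega), mul_zero]
    have k6 : (p : R) * (q : R) * mon a b u v s i j (p - 1) (q - 1) = 0 := by
      rcases Nat.eq_zero_or_pos p with rfl | hi
      · simp
      · rcases Nat.eq_zero_or_pos q with rfl | hj
        · simp
        · rw [ih' _ _ _ _ (by omega), mul_zero]
    rw [k0, k1, k2, k3, k4, k5, k6]
    simp

theorem mon_top {a b u v τ : ι → R} (s : Finset ι) :
    (∀ x ∈ s, Nul (a x) (b x) (u x) (v x) (τ x)) → ∀ k l : ℕ, k + l = s.card →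
      mon a b u v s k k l l =
        ((s.card.choose k * (k.factorial ^ 2 * l.factorial ^ 2) : ℕ) : R) * ∏ x ∈ s, τ x := by
  induction s using Finset.induction with
  | empty =>
    intro _ k l h
    rw [Finset.card_empty] at h
    obtain ⟨rfl, rfl⟩ : k = 0 ∧ l = 0 := by omega
    simp [mon]
  | insert x s hx ih =>
    intro hN k l h
    rw [Finset.card_insert_of_notMem hx] at h ⊢
    have hN' : ∀ y ∈ s, Nul (a y) (b y) (u y) (v y) (τ y) :=
      fun y hy => hN y (Finset.mem_insert_of_mem hy)
    have ih' := ih hN'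
    have z := mon_zero (a := a) (b := b) (u := u) (v := v) s hN'
    rw [mon_insert hx (hN x (Finset.mem_insert_self _ _)), Finset.prod_insert hx]
    have k0 := z k k l l (by omega)
    have k1 : (k : R) * mon a b u v s (k - 1) k l l = 0 := by
      rcases Nat.eq_zero_or_pos k with rfl | hi
      · simp
      · rw [z _ _ _ _ (by omega), mul_zero]
    have k2 : (k : R) * mon a b u v s k (k - 1) l l = 0 := by
      rcases Nat.eq_zero_or_pos k with rfl | hi
      · simp
      · rw [z _ _ _ _ (by omega), mul_zero]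
    have k3 : (l : R) * mon a b u v s k k (l - 1) l = 0 := by
      rcases Nat.eq_zero_or_pos l with rfl | hi
      · simp
      · rw [z _ _ _ _ (by omega), mul_zero]
    have k4 : (l : R) * mon a b u v s k k l (l - 1) = 0 := by
      rcases Nat.eq_zero_or_pos l with rfl | hi
      · simp
      · rw [z _ _ _ _ (by omega), mul_zero]
    have k5 : (k : R) * (k : R) * mon a b u v s (k - 1) (k - 1) l l =
        (((if k = 0 then 0 else s.card.choose (k - 1)) *
          (k.factorial ^ 2 * l.factorial ^ 2) : ℕ) : R) * ∏ x ∈ s, τ x := by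
      rcases Nat.eq_zero_or_pos k with rfl | hi
      · simp
      · obtain ⟨k', rfl⟩ : ∃ k', k = k' + 1 := ⟨k - 1, by omega⟩
        rw [if_neg (by omega), Nat.add_sub_cancel, ih' k' l (by omega), Nat.factorial_succ]
        push_cast
        ring
    have k6 : (l : R) * (l : R) * mon a b u v s k k (l - 1) (l - 1) =
        (((s.card.choose k) * (k.factorial ^ 2 * l.factorial ^ 2) : ℕ) : R) *
          ∏ x ∈ s, τ x := by
      rcases Nat.eq_zero_or_pos l with rfl | hi
      · have : s.card.choose k = 0 := Nat.choose_eq_zero_of_lt (by omega)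
        rw [this]
        simp
      · obtain ⟨l', rfl⟩ : ∃ l', l = l' + 1 := ⟨l - 1, by omega⟩
        rw [Nat.add_sub_cancel, ih' k l' (by omega), Nat.factorial_succ]
        push_cast
        ring
    have hch : (s.card + 1).choose k = (if k = 0 then 0 else s.card.choose (k - 1)) +
        s.card.choose k := by
      rcases Nat.eq_zero_or_pos k with rfl | hi
      · simp
      · obtain ⟨k', rfl⟩ : ∃ k', k = k' + 1 := ⟨k - 1, by omega⟩
        rw [if_neg (by omega), Nat.add_sub_cancel, Nat.choose_succ_succ]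
    rw [k0, k1, k2, k3, k4, k5, k6, hch]
    push_cast
    ring

/-- The top power. -/
theorem pair_pow {m : ℕ} {a b u v τ : Fin m → R}
    (hN : ∀ x, Nul (a x) (b x) (u x) (v x) (τ x)) :
    ((∑ x, a x) * (∑ x, b x) + (∑ x, u x) * (∑ x, v x)) ^ m =
      (((m + 1) * m.factorial ^ 2 : ℕ) : R) * ∏ x, τ x := by
  rw [add_pow]
  have h : ∀ k ∈ range (m + 1), ((∑ x, a x) * (∑ x, b x)) ^ k *
      ((∑ x, u x) * (∑ x, v x)) ^ (m - k) * ((m.choose k : ℕ) : R) =
      ((m.factorial ^ 2 : ℕ) : R) * ∏ x, τ x := by
    intro k hk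
    rw [Finset.mem_range] at hk
    have h1 := mon_top (a := a) (b := b) (u := u) (v := v) (τ := τ) Finset.univ (fun x _ => hN x)
      k (m - k) (by rw [Finset.card_univ, Fintype.card_fin]; omega)
    rw [Finset.card_univ, Fintype.card_fin] at h1
    unfold mon at h1
    have h2 : m.choose k * (m.choose k * (k.factorial ^ 2 * (m - k).factorial ^ 2)) =
        m.factorial ^ 2 := by
      have := Nat.choose_mul_factorial_mul_factorial (show k ≤ m by omega)
      rw [← this]
      ring
    rw [mul_pow, mul_pow, ← h2]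
    push_cast at h1 ⊢
    linear_combination ((m.choose k : ℕ) : R) * h1
  rw [Finset.sum_congr rfl h, Finset.sum_const, Finset.card_range, nsmul_eq_mul]
  push_cast
  ring

end Pool.Agent.U661.CH
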