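import Pool.Agent.U661.CH.Val

/-!
# Comparison with ball quotients
-/

set_option autoImplicit false

namespace Pool.Agent.U661.CH

open Finset Pool.Agent.Y195.HF Pool.Agent.W666.GB Pool.Agent.W669.HD Pool.Agent.U661.HS

variable {m : ℕ} {V : Type} [NormedAddCommGroup V] [InnerProductSpace ℝ V]

theorem ball_nonneg {k : ℝ} (hk : 0 ≤ k) : 0 ≤ ballGB m k := by
  have hπ := Real.pi_pos
  unfold ballGB
  positivity

theorem ball_pos {k : ℝ} (hk : 0 < k) : 0 < ballGB m k := by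
  have hπ := Real.pi_pos
  unfold ballGB
  positivity

theorem gbc_ball_neg {J : V →ₗ[ℝ] V} (hJ : CStr J) (e : OrthonormalBasis (Fin m × Bool) ℝ V)
    (k : ℝ) : (-1) ^ m * gbc e (negT (fun x y z w => k * csf J 1 x y z w)) = ballGB m k := by
  rw [RV.gbc_neg, gbc_ball hJ e k]

/-- The comparison for a fixed complex structure. -/
theorem fixed_main {J : V →ₗ[ℝ] V} (hJ : CStr J) (e : OrthonormalBasis (Fin m × Bool) ℝ V)
    {n : ℕ} {A : Fin n → V → V → ℝ} (hA : ∀ a, SkewForm (A a)) (hAJ : ∀ a, AntiJ J (A a))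
    {D P : V → V → V → V → ℝ} (hD : JPos J D) (hP : JPos J P) :
    (-1) ^ m * gbc e (negT D) ≤ (-1) ^ m * gbc e (negT (tot A D P)) :=
  tri_main e hA (tri_fixed hJ hAJ hD hP)

/-- Comparison with complex hyperbolic space. -/
theorem ball_main {J : V →ₗ[ℝ] V} (hJ : CStr J) (e : OrthonormalBasis (Fin m × Bool) ℝ V)
    {n : ℕ} {A : Fin n → V → V → ℝ} (hA : ∀ a, SkewForm (A a)) (hAJ : ∀ a, AntiJ J (A a))
    {P : V → V → V → V → ℝ} (hP : JPos J P) {k : ℝ} (hk : 0 ≤ k) :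
    ballGB m k ≤ (-1) ^ m *
      gbc e (negT (tot A (fun x y z w => k * csf J 1 x y z w) P)) := by
  rw [← gbc_ball_neg hJ e k]
  exact fixed_main hJ e hA hAJ (JPos.csf hk (by norm_num) le_rfl) hP

/-- The pointwise hypothesis: `-R = k (unitT + skewCurv (kf J)) + P + ∑ skewCurv (A a)` for some
orthogonal complex structure `J`, with `P` positive in the sense of `JPos J` and skew forms `A a` of
type `(2,0) + (0,2)`. -/
def BallType (k : ℝ) (R : V → V → V → V → ℝ) : Prop :=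
  ∃ (J : V →ₗ[ℝ] V) (n : ℕ) (A : Fin n → V → V → ℝ) (P : V → V → V → V → ℝ), CStr J ∧
    (∀ a, SkewForm (A a)) ∧ (∀ a, AntiJ J (A a)) ∧ JPos J P ∧
    R = negT (tot A (fun x y z w => k * csf J 1 x y z w) P)

theorem ballType_bound (e : OrthonormalBasis (Fin m × Bool) ℝ V) {k : ℝ} (hk : 0 ≤ k)
    {R : V → V → V → V → ℝ} (h : BallType k R) : ballGB m k ≤ (-1) ^ m * gbc e R := by
  obtain ⟨J, n, A, P, hJ, hA, hAJ, hP, rfl⟩ := h
  exact ball_main hJ e hA hAJ hP hk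

theorem field_ball {M : Type} [MeasurableSpace M] (μ : MeasureTheory.Measure M)
    (K : CurvField m M) (k : M → ℝ) (h : ∀ p, 0 ≤ k p ∧ BallType (k p) (K.R p)) :
    0 ≤ (-1) ^ m * ∫ p, K.gb p ∂μ ∧
      (MeasureTheory.Integrable K.gb μ → ∫ p, ballGB m (k p) ∂μ ≤ (-1) ^ m * ∫ p, K.gb p ∂μ) ∧
      (MeasureTheory.Integrable K.gb μ → μ {p | 0 < k p} ≠ 0 →
        0 < (-1) ^ m * ∫ p, K.gb p ∂μ) := by
  have h1 : ∀ p, ballGB m (k p) ≤ (-1) ^ m * K.gb p :=
    fun p => ballType_bound (K.e p) (h p).1 (h p).2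
  have hr : ∀ p, 0 ≤ ballGB m (k p) := fun p => ball_nonneg (h p).1
  have h0 : ∀ p, 0 ≤ (-1) ^ m * K.gb p := fun p => (hr p).trans (h1 p)
  rw [← MeasureTheory.integral_const_mul]
  refine ⟨MeasureTheory.integral_nonneg h0, fun hi => ?_, fun hi hμ => ?_⟩
  · exact MeasureTheory.integral_mono_of_nonneg (Filter.Eventually.of_forall hr)
      (hi.const_mul _) (Filter.Eventually.of_forall h1)
  · rw [MeasureTheory.integral_pos_iff_support_of_nonneg h0 (hi.const_mul _)]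
    refine lt_of_lt_of_le (pos_iff_ne_zero.mpr hμ) (MeasureTheory.measure_mono fun p hp => ?_)
    have h2 := ball_pos (m := m) (show 0 < k p from hp)
    exact (h2.trans_le (h1 p)).ne'

end Pool.Agent.U661.CH
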