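import Pool.Agent.U661.HS.Cliff
import Pool.Agent.U661.RV.Geo
import Pool.Agent.U661.CH.Comb

/-!
# The value of the Gauss–Bonnet–Chern integrand for complex space forms
-/

set_option autoImplicit false

namespace Pool.Agent.U661.CH

open Finset Pool.Agent.Y195.HF Pool.Agent.W666.GB Pool.Agent.W669.HD Pool.Agent.U661.HS

variable {m : ℕ}

section bvs

variable {M : Type} [AddCommGroup M] [Module ℂ M]

theorem bb1 (x y z : M) : bv x y * bv x z = 0 := by
  rw [bv_exch, bv_self, zero_mul, neg_zero]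

theorem bb2 (x y z : M) : bv x y * bv z x = 0 := by
  rw [bv_swap x z, mul_neg, bb1, neg_zero]

theorem bb3 (x y z : M) : bv y x * bv x z = 0 := by
  rw [bv_swap x y, neg_mul, bb1, neg_zero]

theorem bb4 (x y z : M) : bv y x * bv z x = 0 := by
  rw [bv_swap x y, neg_mul, bb2, neg_zero]

end bvs

/-- the products of the four vectors -/
noncomputable def tb (W : Fin m → Fin m × Bool → ℂ) (b : Fin m) : Zc (I2 m → ℂ) :=
  bv (cv (W b) false) (cv (W b) true) * bv (cv (cjv (W b)) false) (cv (cjv (W b)) true)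

theorem nul_W (W : Fin m → Fin m × Bool → ℂ) (b : Fin m) :
    Nul (bv (cv (W b) false) (cv (cjv (W b)) true)) (bv (cv (W b) true) (cv (cjv (W b)) false))
      (-bv (cv (W b) false) (cv (cjv (W b)) false)) (bv (cv (W b) true) (cv (cjv (W b)) true))
      (tb W b) where
  aa := bb1 _ _ _
  bb := bb1 _ _ _
  uu := by rw [neg_mul_neg]; exact bb1 _ _ _
  vv := bb1 _ _ _
  ab := by
    rw [bv_exch, tb, bv_swap (cv (cjv (W b)) false) (cv (cjv (W b)) true), mul_neg, neg_neg]
  uv := by rw [neg_mul, bv_exch, neg_neg, tb]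
  au := by rw [mul_neg, bb1, neg_zero]
  av := bb4 _ _ _
  bu := by rw [mul_neg, bb4, neg_zero]
  bv := bb1 _ _ _

theorem map_prod_bv (f : (I2 m → ℂ) →ₗ[ℂ] (I2 m → ℂ)) (u v : Fin m → I2 m → ℂ)
    (s : Finset (Fin m)) : ExteriorAlgebra.map f (zval (∏ b ∈ s, bv (u b) (v b))) =
      zval (∏ b ∈ s, bv (f (u b)) (f (v b))) := by
  classical
  induction s using Finset.induction with
  | empty => simp
  | insert b s hb ih =>
    rw [Finset.prod_insert hb, Finset.prod_insert hb, map_mul, map_mul, map_mul, ih, map_bv]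

theorem top_tb {W : Fin m → Fin m × Bool → ℂ} (hW : Uni W) : LF m (zval (∏ b, tb W b)) = 1 := by
  have h := LF_map (det_pol hW) (zval (Y195.HF.phi (th m false) * Y195.HF.phi (th m true)))
  rw [LF_phi] at h
  rw [← h]
  congr 1
  rw [map_mul, map_mul, Y195.HF.phi, Y195.HF.phi, map_prod_bv, map_prod_bv, ← map_mul,
    ← Finset.prod_mul_distrib]
  congr 1
  refine Finset.prod_congr rfl fun b _ => ?_
  rw [pol_e, pol_e, pol_f0, pol_f1, bv_neg_right,
    bv_swap (cv (cjv (W b)) false) (cv (cjv (W b)) true), neg_neg, tb]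

/-- The mixed value of the curvature tensor of complex projective space. -/
theorem gm_csf {V : Type} [NormedAddCommGroup V] [InnerProductSpace ℝ V] {J : V →ₗ[ℝ] V}
    (hJ : CStr J) (e : OrthonormalBasis (Fin m × Bool) ℝ V) :
    gm (fun _ : Fin m => cp e (csf J 1)) = 8 ^ m * ((m + 1) * m.factorial ^ 2) := by
  obtain ⟨f, hf⟩ := exists_UB e hJ
  have h1 : eL (cx (cp e (csf J 1))) = (8 : ℂ) •
      ((∑ b, bv (cv (pv e f b) false) (cv (cjv (pv e f b)) true)) *
        (∑ b, bv (cv (pv e f b) true) (cv (cjv (pv e f b)) false)) +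
      (∑ b, -bv (cv (pv e f b) false) (cv (cjv (pv e f b)) false)) *
        (∑ b, bv (cv (pv e f b) true) (cv (cjv (pv e f b)) true))) := by
    rw [eL_csf hJ e hf, Finset.sum_neg_distrib]
    change _ = (8 : ℂ) • (HH false true (pv e f) * HH true false (pv e f) +
      -HH false false (pv e f) * HH true true (pv e f))
    rw [neg_mul]
    push_cast
    module
  rw [gm_LR, h1, smul_pow, pair_pow (nul_W (pv e f)), LR_apply, map_smul, map_smul, map_mul,
    map_natCast]
  have h2 := top_tb (uni_pv e f)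
  have h3 : ((((m + 1) * m.factorial ^ 2 : ℕ) : ExteriorAlgebra ℂ (I2 m → ℂ))) *
      zval (∏ b, tb (pv e f) b) = (((m + 1) * m.factorial ^ 2 : ℕ) : ℂ) •
        zval (∏ b, tb (pv e f) b) := by
    rw [Algebra.smul_def, map_natCast]
  rw [h3, map_smul, h2, smul_eq_mul, smul_eq_mul, mul_one]
  have h4 : (8 : ℂ) ^ m * (((m + 1) * m.factorial ^ 2 : ℕ) : ℂ) =
      ((8 ^ m * ((m + 1) * m.factorial ^ 2) : ℝ) : ℂ) := by
    push_cast
    ring
  rw [h4, Complex.ofReal_re]

/-- The modulus of the Gauss–Bonnet–Chern integrand of a complex space form of holomorphic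
sectional curvature `±4k` and real dimension `2m`: `(m+1)! (k/π)^m`. -/
noncomputable def ballGB (m : ℕ) (k : ℝ) : ℝ := (m + 1).factorial * (k / Real.pi) ^ m

theorem gbc_ball {V : Type} [NormedAddCommGroup V] [InnerProductSpace ℝ V] {J : V →ₗ[ℝ] V}
    (hJ : CStr J) (e : OrthonormalBasis (Fin m × Bool) ℝ V) (k : ℝ) :
    gbc e (fun x y z w => k * csf J 1 x y z w) = ballGB m k := by
  have h0 : gbc e (fun x y z w => k * csf J 1 x y z w) = k ^ m * gbc e (csf J 1) := by
    rw [RV.gbc_gm, RV.gbc_gm, gm_LR, gm_LR]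
    have h1 : (cx (cp e (fun x y z w => k * csf J 1 x y z w)) : C4 m) = fun i j k' l =>
        (k : ℂ) * cx (cp e (csf J 1)) i j k' l := by
      funext i j k' l
      simp only [cx, cp]
      push_cast
      rfl
    rw [h1, eL_smul, smul_pow]
    have h2 : (k : ℂ) ^ m • eL (cx (cp e (csf J 1))) ^ m =
        (k ^ m : ℝ) • eL (cx (cp e (csf J 1))) ^ m := by
      rw [← Complex.coe_smul]
      push_cast
      rfl
    rw [h2, map_smul, smul_eq_mul]
    ring
  rw [h0, RV.gbc_gm, gm_csf hJ e, ballGB, Nat.factorial_succ]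
  have hπ := Real.pi_pos
  have hm : (m.factorial : ℝ) ≠ 0 := by exact_mod_cast m.factorial_ne_zero
  rw [mul_pow, div_pow]
  push_cast
  field_simp

end Pool.Agent.U661.CH
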